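import Pool.Agent.Helper93.GS.Stmts

set_option autoImplicit false

/-! MP_5ef000_al: the terms of the lower central series are finitely generated modulo the next. -/

namespace Pool.Agent.Helper93.GS

open scoped commutatorElement

theorem st_FGL : ST_FGL := by
  intro W _ hW c
  obtain ⟨X, hX, hXf⟩ := (Subgroup.fg_iff (⊤ : Subgroup W)).1 (Group.fg_def.1 hW)
  induction c with
  | zero =>
    refine ⟨X, hXf, ?_⟩
    rw [hX, Subgroup.lowerCentralSeries_zero, top_sup_eq]
  | succ c ih =>
    obtain ⟨Z, hZf, hZ⟩ := ih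
    obtain ⟨Z', hZ'⟩ : ∃ Z' : Set W, Z' = (fun p : W × W => ⁅p.1, p.2⁆) '' (Z ×ˢ X) := ⟨_, rfl⟩
    refine ⟨Z', by rw [hZ']; exact (hZf.prod hXf).image _, ?_⟩
    have hle : Subgroup.lowerCentralSeries (⊤ : Subgroup W) (c + 1 + 1) ≤
        Subgroup.lowerCentralSeries (⊤ : Subgroup W) (c + 1) :=
      Subgroup.lowerCentralSeries_antitone _ (Nat.le_succ _)
    have hcom : ∀ y ∈ Subgroup.lowerCentralSeries (⊤ : Subgroup W) (c + 1), ∀ g : W,
        ⁅y, g⁆ ∈ Subgroup.lowerCentralSeries (⊤ : Subgroup W) (c + 1 + 1) := by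
      intro y hy g
      rw [Subgroup.lowerCentralSeries_succ _ (c + 1)]
      exact Subgroup.commutator_mem_commutator hy (Subgroup.mem_top g)
    have hZ'l : Z' ⊆ Subgroup.lowerCentralSeries (⊤ : Subgroup W) (c + 1) := by
      rw [hZ']
      rintro _ ⟨⟨z, x⟩, ⟨hz, -⟩, rfl⟩
      rw [SetLike.mem_coe, Subgroup.lowerCentralSeries_succ _ c]
      apply Subgroup.commutator_mem_commutator _ (Subgroup.mem_top x)
      rw [hZ]
      exact Subgroup.mem_sup_left (Subgroup.subset_closure hz)
    obtain ⟨M, hM⟩ : ∃ M : Subgroup W, M = Subgroup.closure Z' ⊔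
        Subgroup.lowerCentralSeries (⊤ : Subgroup W) (c + 1 + 1) := ⟨_, rfl⟩
    have hML : M ≤ Subgroup.lowerCentralSeries (⊤ : Subgroup W) (c + 1) := by
      rw [hM]
      exact sup_le ((Subgroup.closure_le _).2 hZ'l) hle
    have hLM : Subgroup.lowerCentralSeries (⊤ : Subgroup W) (c + 1 + 1) ≤ M := by
      rw [hM]
      exact le_sup_right
    have hn : M.Normal := by
      constructor
      intro y hy g
      have h1 : g * y * g⁻¹ = ⁅y, g⁆⁻¹ * y := by
        rw [commutatorElement_inv, commutatorElement_def]
        group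
      rw [h1]
      exact M.mul_mem (M.inv_mem (hLM (hcom y (hML hy) g))) hy
    rw [← hM]
    apply le_antisymm _ hML
    have hcen : Subgroup.lowerCentralSeries (⊤ : Subgroup W) c ≤
        (Subgroup.center (W ⧸ M)).comap (QuotientGroup.mk' M) := by
      rw [hZ]
      apply sup_le
      · rw [Subgroup.closure_le]
        intro z hz
        rw [SetLike.mem_coe, Subgroup.mem_comap, Subgroup.mem_center_iff]
        have h1 : (⊤ : Subgroup W) ≤
            (Subgroup.centralizer {QuotientGroup.mk' M z}).comap (QuotientGroup.mk' M) := by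
          rw [← hX, Subgroup.closure_le]
          intro x hx
          rw [SetLike.mem_coe, Subgroup.mem_comap, Subgroup.mem_centralizer_singleton_iff,
            eq_comm, ← commutatorElement_eq_one_iff_mul_comm, ← map_commutatorElement]
          apply (QuotientGroup.eq_one_iff _).2
          rw [hM]
          apply Subgroup.mem_sup_left (Subgroup.subset_closure _)
          rw [hZ']
          exact ⟨(z, x), ⟨hz, hx⟩, rfl⟩
        intro q
        obtain ⟨w, rfl⟩ := QuotientGroup.mk'_surjective M q
        have h2 := h1 (Subgroup.mem_top w)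
        rw [Subgroup.mem_comap, Subgroup.mem_centralizer_singleton_iff] at h2
        exact h2
      · intro y hy
        rw [Subgroup.mem_comap, Subgroup.mem_center_iff]
        intro q
        obtain ⟨w, rfl⟩ := QuotientGroup.mk'_surjective M q
        rw [eq_comm, ← commutatorElement_eq_one_iff_mul_comm, ← map_commutatorElement]
        exact (QuotientGroup.eq_one_iff _).2 (hLM (hcom y hy w))
    rw [Subgroup.lowerCentralSeries_succ _ c, Subgroup.commutator_le]
    intro a ha w _
    have h1 := hcen ha
    rw [Subgroup.mem_comap, Subgroup.mem_center_iff] at h1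
    have h2 := h1 (QuotientGroup.mk' M w)
    rw [eq_comm, ← commutatorElement_eq_one_iff_mul_comm, ← map_commutatorElement] at h2
    exact (QuotientGroup.eq_one_iff _).1 h2

end Pool.Agent.Helper93.GS
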